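import Pool.Agent.TH682.KA.Final

set_option autoImplicit false

/-!
# No oblivious transfer without errors from an oracle, for parties with quantum computers and
classical communication

The sender (Alice) has the bits `b false`, `b true`, the receiver (Bob) has the bit `c` and gets
`b c`. They have quantum computers, ask an oracle `h : X → Bool` in superposition, and send
classical messages; the protocol is correct for all `h`. Then there are classical procedures
`T c τ` (`τ`: the messages) with at most `(2 d) ^ 4` classical questions to the oracle, where `d`
is the number of the questions of the parties, such that: `T c τ` finds `b c` with certainty if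
the receiver's bit is `c`; and for every oracle and all bits `b`, either the sender, who knows `b`,
can distinguish the receiver's bits `c` and `!c` by the test `T c τ = b c`, or the receiver with
the bit `!c` finds both bits: `1 - P[he finds both] ≤` the advantage of the test.
-/

namespace Pool.Agent.Results.MP_ae38e0_lc.QuantumPartiesNoErrors

open Pool.Agent.TH682.KA

theorem result (X M K α β : Type) [Fintype M] [Fintype α] [Fintype β] [DecidableEq α]
    [DecidableEq β] (P : Prot X M K Bool α β) (hP : P.Valid) (u : (Bool → Bool) → α → ℂ)
    (v : Bool → β → ℂ) (hu : ∀ b, ∑ s, ‖u b s‖ ^ 2 = 1) (hv : ∀ c, ∑ t, ‖v c t‖ ^ 2 = 1)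
    (hc : ∀ h b c, P.prob h (fun _ _ l => l = b c) (u b) (v c) = 1) :
    ∃ T : Bool → List M → DTree X Bool, (∀ c τ, (T c τ).depth ≤ (2 * P.asks) ^ 4) ∧
      ∀ h b c, P.prob h (fun τ _ _ => (T c τ).eval h = b c) (u b) (v c) = 1 ∧
        1 - P.prob h (fun τ _ l => l = b (!c) ∧ (T c τ).eval h = b c) (u b) (v (!c)) ≤
          P.prob h (fun τ _ _ => (T c τ).eval h = b c) (u b) (v c) -
          P.prob h (fun τ _ _ => (T c τ).eval h = b c) (u b) (v (!c)) :=
  oblivious P hP u v hu hv hc

end Pool.Agent.Results.MP_ae38e0_lc.QuantumPartiesNoErrors
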